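import Mathlib
import Pool.Agent.T6.H75.CSet

/-!
# `C_h[g]`-sets of optimal order for all `g > (h - 1)!`

For all `h ≥ 2`, `g ≥ (h - 1)! + 1` and `n ≥ 1` there is a `C_h[g]`-set `A ⊆ {1, ..., n}` with
`|A| ≥ 8 ^ (1 - h) n ^ (1 - 1 / h)`. Up to the constant this is the largest possible size. The set
consists of encodings of the pairs `(x, N x)`, where `x` runs over the nonzero elements of the field
with `p ^ (h - 1)` elements and `N` is the norm to the field with `p` elements.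
-/

set_option autoImplicit false

namespace Pool.Agent.Results.MP_7f687a_co.FactorialRange

open Finset

/-- `A` is a `C_h[g]`-set: there is no set `X` of `h` integers with `g` distinct translates
`X + k`, `k ∈ K`, which are contained in `A`. -/
def IsCSet (h g : ℕ) (A : Finset ℤ) : Prop :=
  ¬ ∃ X K : Finset ℤ, X.card = h ∧ K.card = g ∧ ∀ x ∈ X, ∀ k ∈ K, x + k ∈ A

/-- a constant times the optimal order for all `n` -/
theorem main (h g : ℕ) (hh : 2 ≤ h) (hg : (h - 1).factorial + 1 ≤ g) (n : ℕ) (hn : 1 ≤ n) :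
    ∃ A : Finset ℤ, A ⊆ Finset.Icc 1 (n : ℤ) ∧ IsCSet h g A ∧
      ((8 : ℝ) ^ (h - 1))⁻¹ * (n : ℝ) ^ (1 - 1 / (h : ℝ)) ≤ A.card := by
  obtain ⟨t, rfl⟩ : ∃ t, h = t + 1 := ⟨h - 1, by omega⟩
  have ht : t ≠ 0 := by omega
  simp only [Nat.add_sub_cancel] at hg ⊢
  have hexp : (1 : ℝ) - 1 / ((t + 1 : ℕ) : ℝ) = (t : ℝ) / (t + 1) := by
    push_cast
    field_simp
    ring
  rw [hexp]
  have hex : ∃ m, n < 2 ^ t * (2 * m) ^ (t + 1) := by
    refine ⟨n, ?_⟩
    calc n < 2 * n := by omega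
      _ ≤ (2 * n) ^ (t + 1) := Nat.le_self_pow (by omega) _
      _ ≤ 2 ^ t * (2 * n) ^ (t + 1) := Nat.le_mul_of_pos_left _ (by positivity)
  classical
  obtain ⟨m, hm1, hm2⟩ : ∃ m, n < 2 ^ t * (2 * (m + 1)) ^ (t + 1) ∧
      (m ≠ 0 → 2 ^ t * (2 * m) ^ (t + 1) ≤ n) := by
    have h1 := Nat.find_spec hex
    have h2 : ∀ m < Nat.find hex, 2 ^ t * (2 * m) ^ (t + 1) ≤ n := fun m hm =>
      not_lt.1 (Nat.find_min hex hm)
    rcases hM : Nat.find hex with _ | M
    · rw [hM] at h1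
      simp at h1
    · rw [hM] at h1 h2
      exact ⟨M, h1, fun _ => h2 M (by omega)⟩
  -- the real inequality
  have hreal : ∀ M : ℕ, n ≤ 2 ^ t * (4 * M) ^ (t + 1) →
      ((8 : ℝ) ^ t)⁻¹ * (n : ℝ) ^ ((t : ℝ) / (t + 1)) ≤ (M : ℝ) ^ t := by
    intro M hM
    rw [inv_mul_le_iff₀ (by positivity)]
    have h1 : (n : ℝ) ≤ (8 * (M : ℝ)) ^ (t + 1) := by
      have h2 : n ≤ (8 * M) ^ (t + 1) := by
        refine hM.trans ?_
        calc 2 ^ t * (4 * M) ^ (t + 1) ≤ 2 ^ (t + 1) * (4 * M) ^ (t + 1) :=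
              Nat.mul_le_mul_right _ (Nat.pow_le_pow_right (by norm_num) (by omega))
          _ = (8 * M) ^ (t + 1) := by
              rw [← mul_pow]
              congr 1
              ring
      exact_mod_cast h2
    calc (n : ℝ) ^ ((t : ℝ) / (t + 1)) ≤ ((8 * (M : ℝ)) ^ (t + 1)) ^ ((t : ℝ) / (t + 1)) :=
          Real.rpow_le_rpow (by positivity) h1 (by positivity)
      _ = (8 * (M : ℝ)) ^ t := by
          rw [← Real.rpow_natCast, ← Real.rpow_mul (by positivity), ← Real.rpow_natCast]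
          congr 1
          push_cast
          field_simp
      _ = 8 ^ t * (M : ℝ) ^ t := by rw [mul_pow]
  by_cases hm0 : m = 0
  · subst hm0
    refine ⟨{1}, ?_, ?_, ?_⟩
    · intro a ha
      rw [mem_singleton] at ha
      rw [mem_Icc]
      omega
    · rintro ⟨X, K, hX, hK, hXK⟩
      have hK0 : K.Nonempty := by
        rw [← Finset.card_pos]
        omega
      obtain ⟨k, hk⟩ := hK0
      have h1 : X.card ≤ 1 := by
        rw [Finset.card_le_one]
        intro a ha b hb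
        have e1 := mem_singleton.1 (hXK a ha k hk)
        have e2 := mem_singleton.1 (hXK b hb k hk)
        omega
      omega
    · have h1 := hreal 1 (by
        refine hm1.le.trans (Nat.mul_le_mul_left _ (Nat.pow_le_pow_left (by norm_num) _)))
      simpa using h1
  · have hm3 := hm2 hm0
    obtain ⟨p, hp, hp1, hp2⟩ := Nat.exists_prime_lt_and_le_two_mul m hm0
    have : Fact p.Prime := ⟨hp⟩
    obtain ⟨A, hA1, hA2, hA3⟩ := Pool.Agent.T6.H75.CSet.exists_set p t ht
    refine ⟨A, ?_, ?_, ?_⟩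
    · intro a ha
      obtain ⟨h1, h2⟩ := hA1 a ha
      rw [mem_Icc]
      refine ⟨h1, h2.trans ?_⟩
      have h3 : p * (2 * p) ^ t ≤ n := by
        refine le_trans ?_ hm3
        calc p * (2 * p) ^ t = 2 ^ t * p ^ (t + 1) := by
              rw [mul_pow]
              ring
          _ ≤ 2 ^ t * (2 * m) ^ (t + 1) := Nat.mul_le_mul_left _ (Nat.pow_le_pow_left hp2 _)
      exact_mod_cast h3
    · rintro ⟨X, K, hX, hK, hXK⟩
      have := hA3 X K hX hXK
      omega
    · refine (hreal m ?_).trans ?_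
      · refine hm1.le.trans (Nat.mul_le_mul_left _ (Nat.pow_le_pow_left ?_ _))
        omega
      · have h1 : m ^ t ≤ A.card := by
          rw [hA2]
          have h2 : m ^ t < p ^ t := Nat.pow_lt_pow_left hp1 ht
          omega
        exact_mod_cast h1

/-- **Theorem.** For all `h ≥ 2` and `g ≥ (h - 1)! + 1` and all `n ≥ 1` there is a `C_h[g]`-set
`A ⊆ {1, ..., n}` with `|A| ≥ n ^ (1 - 1 / h) / 8 ^ (h - 1)`. -/
theorem result : ∀ h g : ℕ, 2 ≤ h → (h - 1).factorial + 1 ≤ g → ∀ n : ℕ, 1 ≤ n →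
    ∃ A : Finset ℤ, A ⊆ Finset.Icc 1 (n : ℤ) ∧ IsCSet h g A ∧
      (n : ℝ) ^ (1 - 1 / (h : ℝ)) / 8 ^ (h - 1) ≤ A.card := by
  intro h g hh hg n hn
  obtain ⟨A, h1, h2, h3⟩ := main h g hh hg n hn
  refine ⟨A, h1, h2, ?_⟩
  rw [div_eq_inv_mul]
  exact h3

end Pool.Agent.Results.MP_7f687a_co.FactorialRange
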